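import Pool.Agent.K3h45.ST.Stm

/-!
# Descent of cocycles along extensions of exponent two (corestriction with characters)
-/

set_option autoImplicit false
set_option linter.unusedSectionVars false

namespace Pool.Agent.K3h45.ST

open Pool.Agent.R384

open scoped Classical

variable {B G : Type} [Fintype B] [Group G]

section alg

variable {R : Representation ℚ_[2] G (B → ℚ_[2])} {χ : G →* ℤˣ} {H : Subgroup G}

/-- the sign as a `2`-adic number -/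
noncomputable def sg (χ : G →* ℤˣ) (σ : G) : ℚ_[2] := (((χ σ : ℤˣ) : ℤ) : ℚ_[2])

lemma sg_of {χ : G →* ℤˣ} {σ : G} (h : χ σ = 1) : sg χ σ = 1 := by
  unfold sg
  rw [h]
  simp

lemma twR_apply (R : Representation ℚ_[2] G (B → ℚ_[2])) (χ : G →* ℤˣ) (σ : G) (v : B → ℚ_[2]) :
    twR R χ σ v = sg χ σ • R σ v := rfl

lemma twR_of {σ : G} (h : χ σ = 1) (v : B → ℚ_[2]) : twR R χ σ v = R σ v := by
  rw [twR_apply, sg_of h, one_smul]

lemma RM (R : Representation ℚ_[2] G (B → ℚ_[2])) (a b : G) (x : B → ℚ_[2]) :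
    R (a * b) x = R a (R b x) := by
  rw [map_mul]
  rfl

/-- the element of `H` -/
noncomputable def hh (H : Subgroup G) (σ : G) (x : G ⧸ H) : G :=
  (Quotient.out (σ • x))⁻¹ * σ * Quotient.out x

lemma out_mk (x : G ⧸ H) : ((Quotient.out x : G) : G ⧸ H) = x := QuotientGroup.out_eq' x

lemma smul_mk (σ : G) (x : G ⧸ H) : σ • x = ((σ * Quotient.out x : G) : G ⧸ H) := by
  conv_lhs => rw [← out_mk x]
  rfl

lemma hh_mem (σ : G) (x : G ⧸ H) : hh H σ x ∈ H := by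
  unfold hh
  rw [mul_assoc, ← QuotientGroup.eq, out_mk, smul_mk]

lemma hh_mul (σ τ : G) (x : G ⧸ H) : hh H (σ * τ) x = hh H σ (τ • x) * hh H τ x := by
  unfold hh
  rw [mul_smul]
  group

/-- the corestriction -/
noncomputable def cor [Fintype (G ⧸ H)] (R : Representation ℚ_[2] G (B → ℚ_[2])) (χ : G →* ℤˣ)
    (c : G → B → ℚ_[2]) (σ : G) : B → ℚ_[2] :=
  ∑ x : G ⧸ H, twR R χ (Quotient.out (σ • x)) (c (hh H σ x))

variable {c : G → B → ℚ_[2]}

lemma cor_mul [Fintype (G ⧸ H)] (hχ : ∀ σ ∈ H, χ σ = 1)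
    (hc : ∀ σ ∈ H, ∀ τ ∈ H, c (σ * τ) = c σ + R σ (c τ)) (σ τ : G) :
    cor (H := H) R χ c (σ * τ) = cor (H := H) R χ c σ + twR R χ σ (cor (H := H) R χ c τ) := by
  have h1 : ∀ x : G ⧸ H, twR R χ (Quotient.out ((σ * τ) • x)) (c (hh H (σ * τ) x)) =
      twR R χ (Quotient.out (σ • (τ • x))) (c (hh H σ (τ • x))) +
      twR R χ σ (twR R χ (Quotient.out (τ • x)) (c (hh H τ x))) := by
    intro x
    rw [hh_mul, hc _ (hh_mem _ _) _ (hh_mem _ _), map_add, mul_smul]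
    congr 1
    rw [← twR_of (χ := χ) (hχ _ (hh_mem σ (τ • x))), ← RM, ← RM]
    congr 2
    unfold hh
    group
  unfold cor
  rw [Finset.sum_congr rfl fun x _ => h1 x, Finset.sum_add_distrib, map_sum]
  congr 1
  exact Fintype.sum_equiv (MulAction.toPerm τ) _ _ fun x => rfl

lemma smul_self [H.Normal] {σ : G} (hσ : σ ∈ H) (x : G ⧸ H) : σ • x = x := by
  conv_rhs => rw [← out_mk x]
  rw [smul_mk, eq_comm, QuotientGroup.eq, ← mul_assoc]
  have h1 : (inferInstance : H.Normal).conj_mem σ hσ (Quotient.out x)⁻¹ =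
    (inferInstance : H.Normal).conj_mem σ hσ (Quotient.out x)⁻¹ := rfl
  have h2 := ‹H.Normal›.conj_mem σ hσ (Quotient.out x)⁻¹
  rwa [inv_inv] at h2

lemma cor_of_mem [Fintype (G ⧸ H)] [H.Normal] {σ : G} (hσ : σ ∈ H) :
    cor (H := H) R χ c σ = ∑ x : G ⧸ H, twR R χ (Quotient.out x)
      (c ((Quotient.out x)⁻¹ * σ * Quotient.out x)) := by
  unfold cor hh
  refine Finset.sum_congr rfl fun x _ => ?_
  rw [smul_self hσ x]

/-- from `H` to the whole group, locally -/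
lemma local_ext [Fintype (G ⧸ H)] {f : G → B → ℚ_[2]} {A : Representation ℚ_[2] G (B → ℚ_[2])}
    (hf : ∀ σ τ, f (σ * τ) = f σ + A σ (f τ)) {S : Subgroup G} {C : Set B}
    (hst : ∀ σ ∈ S, ∀ v : B → ℚ_[2], (∀ b ∈ C, v b = 0) → ∀ b ∈ C, A σ v b = 0)
    (h : ∃ y : B → ℚ_[2], ∀ σ ∈ S, σ ∈ H → ∀ b ∈ C, f σ b = (A σ y - y) b) :
    VCobS A C S f := by
  obtain ⟨y, hy⟩ := h
  set g : G → B → ℚ_[2] := fun σ => f σ - (A σ y - y) with hg
  have hgm : ∀ σ τ, g (σ * τ) = g σ + A σ (g τ) := by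
    intro σ τ
    simp only [hg, hf, RM, map_sub]
    abel
  have hg0 : ∀ σ ∈ S, σ ∈ H → ∀ b ∈ C, g σ b = 0 := by
    intro σ h1 h2 b hb
    simp only [hg]
    rw [Pi.sub_apply, hy σ h1 h2 b hb, sub_self]
  have hcos : ∀ s ∈ S, ∀ s' ∈ S, (s : G ⧸ H) = s' → ∀ b ∈ C, g s' b = g s b := by
    intro s hs s' hs' he b hb
    have h1 : s⁻¹ * s' ∈ H := QuotientGroup.eq.1 he
    have h2 : s⁻¹ * s' ∈ S := S.mul_mem (S.inv_mem hs) hs'
    have e : s' = s * (s⁻¹ * s') := by group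
    rw [e, hgm, Pi.add_apply, hst s hs _ (hg0 _ h2 h1) b hb, add_zero]
  -- the cosets
  set Q : Finset (G ⧸ H) := Finset.univ.filter fun x => ∃ s ∈ S, (s : G ⧸ H) = x with hQ
  have hmem : ∀ x, x ∈ Q ↔ ∃ s ∈ S, (s : G ⧸ H) = x := by
    intro x
    rw [hQ, Finset.mem_filter]
    simp
  have ht : ∀ x : G ⧸ H, ∃ s : G, x ∈ Q → s ∈ S ∧ (s : G ⧸ H) = x := by
    intro x
    by_cases hx : x ∈ Q
    · obtain ⟨s, h1, h2⟩ := (hmem x).1 hx
      exact ⟨s, fun _ => ⟨h1, h2⟩⟩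
    · exact ⟨1, fun h => absurd h hx⟩
  choose t ht using ht
  have hQ1 : ((1 : G) : G ⧸ H) ∈ Q := (hmem _).2 ⟨1, S.one_mem, rfl⟩
  have hcard : ((Q.card : ℕ) : ℚ_[2]) ≠ 0 := by
    rw [Nat.cast_ne_zero]
    exact (Finset.card_pos.2 ⟨_, hQ1⟩).ne'
  have hQs : ∀ σ ∈ S, ∀ x ∈ Q, σ • x ∈ Q := by
    intro σ hσ x hx
    obtain ⟨s, h1, h2⟩ := (hmem x).1 hx
    exact (hmem _).2 ⟨σ * s, S.mul_mem hσ h1, by rw [← h2]; rfl⟩
  set z : B → ℚ_[2] := ∑ x ∈ Q, g (t x) with hz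
  have key : ∀ σ ∈ S, ∀ b ∈ C, (Q.card : ℚ_[2]) * g σ b + A σ z b = z b := by
    intro σ hσ b hb
    have h1 : ∑ x ∈ Q, g (σ * t x) b = ∑ x ∈ Q, g (t (σ • x)) b := by
      refine Finset.sum_congr rfl fun x hx => ?_
      obtain ⟨h2, h3⟩ := ht x hx
      obtain ⟨h4, h5⟩ := ht (σ • x) (hQs σ hσ x hx)
      refine hcos _ h4 _ (S.mul_mem hσ h2) ?_ b hb
      rw [h5]
      conv_lhs => rw [← h3]
      rfl
    have h2 : ∑ x ∈ Q, g (t (σ • x)) b = ∑ x ∈ Q, g (t x) b := by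
      refine Finset.sum_nbij' (fun x => σ • x) (fun x => σ⁻¹ • x) (fun x hx => hQs σ hσ x hx)
        (fun x hx => hQs _ (S.inv_mem hσ) x hx) (fun x _ => inv_smul_smul σ x)
        (fun x _ => smul_inv_smul σ x) (fun x _ => rfl)
    have h3 : ∑ x ∈ Q, g (σ * t x) b = (Q.card : ℚ_[2]) * g σ b + A σ z b := by
      simp only [hgm, Pi.add_apply]
      rw [Finset.sum_add_distrib, Finset.sum_const, nsmul_eq_mul, hz, map_sum, Finset.sum_apply]
    rw [← h3, h1, h2, hz, Finset.sum_apply]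
  refine ⟨y - (Q.card : ℚ_[2])⁻¹ • z, fun σ hσ b hb => ?_⟩
  have h1 := key σ hσ b hb
  have h2 : f σ b = g σ b + (A σ y b - y b) := by
    simp only [hg, Pi.sub_apply]
    ring
  rw [h2, map_sub, map_smul]
  simp only [Pi.sub_apply, Pi.smul_apply, smul_eq_mul]
  have h3 : g σ b = (Q.card : ℚ_[2])⁻¹ * (z b - A σ z b) := by
    rw [← h1]
    field_simp
    ring
  rw [h3]
  ring

lemma cor_local [Fintype (G ⧸ H)] [H.Normal] (hχ : ∀ σ ∈ H, χ σ = 1)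
    (hc : ∀ σ ∈ H, ∀ τ ∈ H, c (σ * τ) = c σ + R σ (c τ)) {S : Subgroup G} {C : Set B}
    (hst : ∀ σ ∈ S, ∀ v : B → ℚ_[2], (∀ b ∈ C, v b = 0) → ∀ b ∈ C, R σ v b = 0)
    (h : ∀ g : G, ∃ y : B → ℚ_[2], ∀ σ ∈ S, σ ∈ H → ∀ b ∈ C,
      R g (c (g⁻¹ * σ * g)) b = (R σ y - y) b) :
    VCobS (twR R χ) C S (cor (H := H) R χ c) := by
  choose y hy using h
  refine local_ext (H := H) (cor_mul hχ hc) ?_ ⟨∑ x : G ⧸ H, sg χ (Quotient.out x) •
    y (Quotient.out x), fun σ h1 h2 b hb => ?_⟩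
  · intro σ hσ v hv b hb
    rw [twR_apply, Pi.smul_apply, hst σ hσ v hv b hb, smul_zero]
  · rw [cor_of_mem h2, Finset.sum_apply, twR_of (hχ σ h2), map_sum, Pi.sub_apply, Finset.sum_apply,
      Finset.sum_apply, ← Finset.sum_sub_distrib]
    refine Finset.sum_congr rfl fun x _ => ?_
    rw [twR_apply, Pi.smul_apply, hy _ σ h1 h2 b hb, map_smul, Pi.smul_apply, Pi.smul_apply,
      ← smul_sub, Pi.sub_apply]

/-- **The global step.** -/
lemma cor_global [Fintype (G ⧸ H)] [H.Normal] {J : Type} [Fintype J] [Nonempty J]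
    {χ : J → G →* ℤˣ} (hχ : ∀ j, ∀ σ ∈ H, χ j σ = 1) (hsum : ∀ σ, σ ∉ H → ∑ j, sg (χ j) σ = 0)
    (hc : ∀ σ ∈ H, ∀ τ ∈ H, c (σ * τ) = c σ + R σ (c τ))
    (h : ∀ j, ∃ y : B → ℚ_[2], ∀ σ, cor (H := H) R (χ j) c σ = twR R (χ j) σ y - y) :
    ∃ y : B → ℚ_[2], ∀ σ ∈ H, c σ = R σ y - y := by
  choose y hy using h
  have hJ : ((Fintype.card J : ℕ) : ℚ_[2]) ≠ 0 := by
    rw [Nat.cast_ne_zero]
    exact Fintype.card_ne_zero
  set h₀ : G := Quotient.out ((1 : G) : G ⧸ H) with hh₀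
  have h₀H : h₀ ∈ H := by
    have h1 : ((h₀ : G) : G ⧸ H) = ((1 : G) : G ⧸ H) := out_mk _
    have h2 := QuotientGroup.eq.1 h1
    rw [mul_one] at h2
    exact (H.inv_mem_iff).1 h2
  refine ⟨(Fintype.card J : ℚ_[2])⁻¹ • ∑ j, y j - c h₀, fun σ hσ => ?_⟩
  have h1 : ∑ j, cor (H := H) R (χ j) c σ = (Fintype.card J : ℚ_[2]) •
      R h₀ (c (h₀⁻¹ * σ * h₀)) := by
    simp only [cor_of_mem hσ, twR_apply]
    rw [Finset.sum_comm]
    have h2 : ∀ x : G ⧸ H, ∑ j, sg (χ j) (Quotient.out x) • R (Quotient.out x)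
        (c ((Quotient.out x)⁻¹ * σ * Quotient.out x)) =
        (∑ j, sg (χ j) (Quotient.out x)) • R (Quotient.out x)
        (c ((Quotient.out x)⁻¹ * σ * Quotient.out x)) := fun x => (Finset.sum_smul ..).symm
    rw [Finset.sum_congr rfl fun x _ => h2 x, Finset.sum_eq_single ((1 : G) : G ⧸ H)]
    · congr 1
      rw [Finset.sum_congr rfl fun j _ => sg_of (hχ j h₀ h₀H)]
      simp
    · intro x _ hx
      rw [hsum _ ?_, zero_smul]
      intro hm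
      apply hx
      rw [← out_mk x, eq_comm, QuotientGroup.eq]
      simpa using hm
    · intro h
      exact absurd (Finset.mem_univ _) h
  have h2 : R h₀ (c (h₀⁻¹ * σ * h₀)) = c σ + R σ (c h₀) - c h₀ := by
    have h3 : h₀⁻¹ * σ * h₀ ∈ H := H.mul_mem (H.mul_mem (H.inv_mem h₀H) hσ) h₀H
    have h4 := hc σ hσ h₀ h₀H
    have h5 := hc h₀ h₀H _ h3
    have e : h₀ * (h₀⁻¹ * σ * h₀) = σ * h₀ := by group
    rw [e, h4] at h5
    rw [h5]
    abel
  have h3 : ∑ j, cor (H := H) R (χ j) c σ = R σ (∑ j, y j) - ∑ j, y j := by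
    rw [map_sum, ← Finset.sum_sub_distrib]
    refine Finset.sum_congr rfl fun j _ => ?_
    rw [hy j σ, twR_of (hχ j σ hσ)]
  rw [h3, h2] at h1
  have h4 : c σ = (Fintype.card J : ℚ_[2])⁻¹ • (R σ (∑ j, y j) - ∑ j, y j) - (R σ (c h₀) - c h₀) := by
    rw [h1, smul_smul, inv_mul_cancel₀ hJ, one_smul]
    abel
  rw [h4, map_sub, map_smul, smul_sub]
  abel

end alg

section top

variable [TopologicalSpace G] [IsTopologicalGroup G] {R : Representation ℚ_[2] G (B → ℚ_[2])}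
  {χ : G →* ℤˣ} {H : Subgroup G} {c : G → B → ℚ_[2]}

lemma cor_cont [Fintype (G ⧸ H)] (hH : IsOpen (H : Set G)) (hc : ContinuousOn c H) :
    Continuous (cor (H := H) R χ c) := by
  unfold cor
  refine continuous_finsetSum _ fun x _ => ?_
  rw [continuous_iff_continuousAt]
  intro σ₀
  set g₀ : G := Quotient.out (σ₀ • x) with hg₀
  have hcont : Continuous fun σ : G => g₀⁻¹ * σ * Quotient.out x := by fun_prop
  have hm : g₀⁻¹ * σ₀ * Quotient.out x ∈ H := hh_mem σ₀ x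
  have h1 : ContinuousAt (fun σ : G => twR R χ g₀ (c (g₀⁻¹ * σ * Quotient.out x))) σ₀ := by
    have h2 : ContinuousAt c (g₀⁻¹ * σ₀ * Quotient.out x) := hc.continuousAt (hH.mem_nhds hm)
    have h3 : ContinuousAt (fun σ : G => c (g₀⁻¹ * σ * Quotient.out x)) σ₀ :=
      ContinuousAt.comp (f := fun σ : G => g₀⁻¹ * σ * Quotient.out x) h2 hcont.continuousAt
    exact (LinearMap.continuous_of_finiteDimensional (twR R χ g₀)).continuousAt.comp h3
  refine h1.congr ?_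
  have hU : {σ : G | g₀⁻¹ * σ * Quotient.out x ∈ (H : Set G)} ∈ nhds σ₀ :=
    (hH.preimage hcont).mem_nhds hm
  filter_upwards [hU] with σ hσ
  have h4 : σ • x = σ₀ • x := by
    rw [← out_mk (σ₀ • x), eq_comm, smul_mk σ x, QuotientGroup.eq, ← mul_assoc]
    exact hσ
  unfold hh
  rw [h4]

end top

end Pool.Agent.K3h45.ST
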