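import Pool.Agent.K3h45.ST.Van2

/-!
# Linear combinations of semistable classes over multiquadratic extensions
-/

set_option autoImplicit false
set_option linter.unusedSectionVars false

namespace Pool.Agent.K3h45.ST

open Pool.Agent.R384
open Pool.Agent.Y715.Red Pool.Agent.Y715.Nr Pool.Agent.W237.RK
open Pool.Agent.Y715.Gi (QB KK GK i₀_mem gk_fix)

open scoped Classical

/-- linear algebra: subspaces of small codimension have a common nonzero vector -/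
lemma common_vector {M f : ℕ} {J : Type} [Fintype J] (W : J → Submodule ℚ_[2] (Fin M → ℚ_[2]))
    (hW : ∀ j, ∀ l : Fin (f + 1) → (Fin M → ℚ_[2]), ∃ x : Fin (f + 1) → ℚ_[2], x ≠ 0 ∧
      ∑ a, x a • l a ∈ W j) (hM : Fintype.card J * f < M) :
    ∃ l : Fin M → ℚ_[2], l ≠ 0 ∧ ∀ j, l ∈ W j := by
  have h1 : ∀ j, Module.finrank ℚ_[2] ((Fin M → ℚ_[2]) ⧸ W j) ≤ f := by
    intro j
    by_contra hcon
    obtain ⟨g, hg⟩ := exists_linearIndependent_of_le_finrank (R := ℚ_[2])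
      (M := (Fin M → ℚ_[2]) ⧸ W j) (n := f + 1) (by omega)
    choose l hl using fun a => Submodule.mkQ_surjective (W j) (g a)
    obtain ⟨x, hx, hx2⟩ := hW j l
    apply hx
    funext a
    have h2 : ∑ a, x a • g a = 0 := by
      have h3 := (Submodule.Quotient.mk_eq_zero (W j)).2 hx2
      rw [← Submodule.mkQ_apply, map_sum] at h3
      rw [← h3]
      refine Finset.sum_congr rfl fun a _ => ?_
      rw [map_smul, hl]
    exact (Fintype.linearIndependent_iff.1 hg) x h2 a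
  set φ : (Fin M → ℚ_[2]) →ₗ[ℚ_[2]] ((j : J) → (Fin M → ℚ_[2]) ⧸ W j) :=
    LinearMap.pi fun j => (W j).mkQ with hφ
  have h2 : Module.finrank ℚ_[2] ((j : J) → (Fin M → ℚ_[2]) ⧸ W j) <
      Module.finrank ℚ_[2] (Fin M → ℚ_[2]) := by
    rw [Module.finrank_pi_fintype, Module.finrank_fin_fun]
    refine lt_of_le_of_lt (Finset.sum_le_sum fun j _ => h1 j) ?_
    rw [Finset.sum_const, smul_eq_mul, Finset.card_univ]
    exact hM
  have h3 := LinearMap.ker_ne_bot_of_finrank_lt (f := φ) h2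
  obtain ⟨l, hl, hl0⟩ := Submodule.exists_mem_ne_zero_of_ne_bot h3
  refine ⟨l, hl0, fun j => ?_⟩
  have h4 := congrFun (LinearMap.mem_ker.1 hl) j
  rw [hφ, LinearMap.pi_apply, Submodule.mkQ_apply] at h4
  exact (Submodule.Quotient.mk_eq_zero _).1 h4

variable {i₀ : QB} {n : ℕ}

/-- the linear combination -/
noncomputable def comb {M : ℕ} (f : Fin M → GK i₀ → (Fin n → Fin 2) → ℚ_[2]) (l : Fin M → ℚ_[2])
    (σ : GK i₀) : (Fin n → Fin 2) → ℚ_[2] := ∑ j, l j • f j σ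

/-- the semistable cocycles over the field fixed by `H` -/
structure LS (H : Subgroup (GK i₀)) (R : Representation ℚ_[2] (GK i₀) ((Fin n → Fin 2) → ℚ_[2]))
    (C₁ C₂ : Set (Fin n → Fin 2)) (ι₁ ι₂ : QB →ₐ[ℚ] PadicAlgCl 2)
    (c : GK i₀ → (Fin n → Fin 2) → ℚ_[2]) : Prop where
  cont : ContinuousOn c H
  mul : ∀ σ ∈ H, ∀ τ ∈ H, c (σ * τ) = c σ + R σ (c τ)
  odd : ∀ (p : ℕ) [Fact p.Prime] (ι : QB →ₐ[ℚ] PadicAlgCl p), p ≠ 2 →
    ∃ y, ∀ σ ∈ (II ι : Set (GK i₀)), σ ∈ H → c σ = R σ y - y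
  one : ∀ g : GK i₀, ∃ y, ∀ σ ∈ (II ι₁ : Set (GK i₀)), σ ∈ H → ∀ x ∈ C₁,
    R g (c (g⁻¹ * σ * g)) x = (R σ y - y) x
  two : ∀ g : GK i₀, ∃ y, ∀ σ ∈ (II ι₂ : Set (GK i₀)), σ ∈ H → ∀ x ∈ C₂,
    R g (c (g⁻¹ * σ * g)) x = (R σ y - y) x

variable {H : Subgroup (GK i₀)} {R : Representation ℚ_[2] (GK i₀) ((Fin n → Fin 2) → ℚ_[2])}
  {C₁ C₂ : Set (Fin n → Fin 2)} {ι₁ ι₂ : QB →ₐ[ℚ] PadicAlgCl 2} {M : ℕ}
  {f : Fin M → GK i₀ → (Fin n → Fin 2) → ℚ_[2]}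

lemma map_comb (σ : GK i₀) (l : Fin M → ℚ_[2]) (y : Fin M → (Fin n → Fin 2) → ℚ_[2]) :
    R σ (∑ j, l j • y j) = ∑ j, l j • R σ (y j) := by
  rw [map_sum]
  exact Finset.sum_congr rfl fun j _ => map_smul _ _ _

lemma cob_comb (σ : GK i₀) (l : Fin M → ℚ_[2]) (y : Fin M → (Fin n → Fin 2) → ℚ_[2]) :
    R σ (∑ j, l j • y j) - ∑ j, l j • y j = ∑ j, l j • (R σ (y j) - y j) := by
  rw [map_comb, ← Finset.sum_sub_distrib]
  exact Finset.sum_congr rfl fun j _ => (smul_sub _ _ _).symm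

/-- linear combinations of semistable cocycles -/
lemma LS.comb (h : ∀ j, LS H R C₁ C₂ ι₁ ι₂ (f j)) (l : Fin M → ℚ_[2]) :
    LS H R C₁ C₂ ι₁ ι₂ (comb f l) := by
  have key : ∀ (S : Set (GK i₀)) (C : Set (Fin n → Fin 2)) (g : GK i₀),
      (∀ j, ∃ y, ∀ σ ∈ S, σ ∈ H → ∀ x ∈ C, R g (f j (g⁻¹ * σ * g)) x = (R σ y - y) x) →
      ∃ y, ∀ σ ∈ S, σ ∈ H → ∀ x ∈ C,
        R g (Pool.Agent.K3h45.ST.comb f l (g⁻¹ * σ * g)) x = (R σ y - y) x := by
    intro S C g hj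
    choose y hy using hj
    refine ⟨∑ j, l j • y j, fun σ hσ hσH x hx => ?_⟩
    unfold Pool.Agent.K3h45.ST.comb
    rw [map_comb, cob_comb, Finset.sum_apply, Finset.sum_apply]
    refine Finset.sum_congr rfl fun j _ => ?_
    rw [Pi.smul_apply, Pi.smul_apply, hy j σ hσ hσH x hx]
  refine ⟨?_, ?_, ?_, fun g => key _ _ g fun j => (h j).one g,
    fun g => key _ _ g fun j => (h j).two g⟩
  · unfold Pool.Agent.K3h45.ST.comb
    exact continuousOn_finsetSum _ fun j _ => (h j).cont.const_smul (l j)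
  · intro σ hσ τ hτ
    unfold Pool.Agent.K3h45.ST.comb
    rw [map_comb, ← Finset.sum_add_distrib]
    refine Finset.sum_congr rfl fun j _ => ?_
    rw [(h j).mul σ hσ τ hτ, smul_add]
  · intro p _ ι hp
    have hj : ∀ j, ∃ y, ∀ σ ∈ (II ι : Set (GK i₀)), σ ∈ H → f j σ = R σ y - y :=
      fun j => (h j).odd p ι hp
    choose y hy using hj
    refine ⟨∑ j, l j • y j, fun σ hσ hσH => ?_⟩
    unfold Pool.Agent.K3h45.ST.comb
    rw [cob_comb]
    refine Finset.sum_congr rfl fun j _ => ?_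
    rw [hy j σ hσ hσH]

lemma cor_comb [Fintype (GK i₀ ⧸ H)] (χ : GK i₀ →* ℤˣ) (l : Fin M → ℚ_[2]) (σ : GK i₀) :
    cor (H := H) R χ (comb f l) σ = ∑ j, l j • cor (H := H) R χ (f j) σ := by
  unfold cor comb
  simp only [map_sum, map_smul, Finset.smul_sum]
  rw [Finset.sum_comm]

lemma comb_comb {N : ℕ} (l : Fin N → Fin M → ℚ_[2]) (x : Fin N → ℚ_[2]) (σ : GK i₀) :
    ∑ a, x a • comb f (l a) σ = comb f (∑ a, x a • l a) σ := by
  unfold comb
  simp only [Finset.smul_sum, Finset.sum_apply, Pi.smul_apply, smul_eq_mul, Finset.sum_smul,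
    smul_smul]
  rw [Finset.sum_comm]

end Pool.Agent.K3h45.ST
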