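import Pool.Agent.K3h45.ST.DimA
import Pool.Agent.K3h12.DM.Pdim

/-!
# The dimension of the semistable classes over multiquadratic extensions
-/

set_option autoImplicit false
set_option linter.unusedSectionVars false

namespace Pool.Agent.K3h45.ST

open Pool.Agent.R384
open Pool.Agent.Y715.Red Pool.Agent.Y715.Nr Pool.Agent.W237.RK
open Pool.Agent.Y715.Gi (QB KK GK i₀_mem gk_fix)
open Pool.Agent.Y715.Df (Cmp exists_cmp)
open Pool.Agent.K3h12.DM (TC S_LATT S_CORE2)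

open scoped Classical

variable {i₀ : QB} (hi : i₀ ^ 2 = i₀ - 2)
variable {D₀ s₀ : OO} {I : QB} {ι₁ ι₂ : QB →ₐ[ℚ] PadicAlgCl 2} {n i : ℕ} {a b c d : Fin n → OO}
  {rk : Fin n → QB} {ρ : Fin n → GK i₀ →* Matrix (Fin 2) (Fin 2) ℤ_[2]} {ψ : GK i₀ →* ℤ_[2]ˣ}

/-- **The bound for the dimension over multiquadratic extensions.** -/
theorem tower_dim (hLT : S_LATT) (hC2 : S_CORE2) (hI : I ^ 2 = -1) (hι₁ : ‖ι₁ i₀‖ < 1)
    (hι₂ : ‖ι₂ (1 - i₀)‖ < 1) (hn0 : 0 < n)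
    (hρ : ∀ k, Rho hi (a k) (b k) (c k) (rk k) I ι₁ ι₂ (ρ k))
    (hrk : ∀ k, rk k ^ 2 = em hi (d k)) (hs₀ : s₀ ≠ 0) (hprod : ∏ k, d k = D₀ * s₀ ^ 2)
    (h0 : ∀ k, a k * b k * c k ≠ 0)
    (hneg : ∀ k π, Prime π → ¬ π ∣ 2 → π ∣ a k * b k * c k → Sqm π (-1))
    {m : ℕ} {δ : Fin m → OO} {s : Fin m → QB} (hs : ∀ j, s j ^ 2 = em hi (δ j))
    (hgood : ∀ T : Finset (Fin m), ∃ (N : ℕ) (q : Fin N → OO) (D e : OO),
      GTw a b c (D₀ * ∏ j ∈ T, δ j) D e q)
    {H : Subgroup (GK i₀)} (hH : ∀ σ, σ ∈ H ↔ ∀ j, σ (s j) = s j)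
    (tc : TC I ψ) (z : ℤ) (F : Finset (Fin n → Fin 2))
    (hF : ∀ x, x ∈ F ↔ z < (cn x 0 : ℤ) ∧ z < (cn x 1 : ℤ))
    (f : Fin (2 ^ m * F.card + 1) → GK i₀ → (Fin n → Fin 2) → ℚ_[2])
    (hf : ∀ j, LS H (tR ρ ψ i) {x | (cn x 0 : ℤ) ≤ z} {x | (cn x 1 : ℤ) ≤ z} ι₁ ι₂ (f j)) :
    ∃ l : Fin (2 ^ m * F.card + 1) → ℚ_[2], l ≠ 0 ∧
      ∃ y, ∀ σ ∈ H, ∑ j, l j • f j σ = tR ρ ψ i σ y - y := by
  -- the square roots
  have hX : ∀ T : Finset (Fin m), D₀ * ∏ j ∈ T, δ j ≠ 0 := by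
    intro T
    obtain ⟨N, q, D, e, h⟩ := hgood T
    rw [h.eq]
    exact mul_ne_zero h.D_ne (pow_ne_zero _ h.ne)
  have hδ : ∀ j, δ j ≠ 0 := by
    intro j hj
    apply hX {j}
    rw [Finset.prod_singleton, hj, mul_zero]
  have hsne : ∀ j, s j ≠ 0 := by
    intro j hj
    have h3 := hs j
    rw [hj, zero_pow two_ne_zero] at h3
    exact em_ne hi (hδ j) h3.symm
  have hor : ∀ j (σ : GK i₀), σ (s j) = s j ∨ σ (s j) = -s j := fun j σ => rt_or hi (hs j) σ
  set χ : Fin m → GK i₀ →* ℤˣ := fun j => chs (s j) (hor j) (hsne j) with hχ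
  have hχs : ∀ j σ, σ (s j) = (((χ j σ : ℤˣ) : ℤ) : QB) * s j := fun j σ =>
    chs_apply (s j) (hor j) (hsne j) σ
  have hχ1 : ∀ j σ, χ j σ = 1 ↔ σ (s j) = s j := fun j σ =>
    chs_one (s := s j) (h := hor j) (h0 := hsne j)
  -- the subgroup
  have hker : H = (MonoidHom.pi χ).ker := by
    ext σ
    rw [hH, MonoidHom.mem_ker]
    constructor
    · intro h
      funext j
      exact (hχ1 j σ).2 (h j)
    · intro h j
      exact (hχ1 j σ).1 (congrFun h j)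
  have hN : H.Normal := by
    rw [hker]
    infer_instance
  have hFin : Finite (GK i₀ ⧸ H) := by
    rw [hker]
    have : (MonoidHom.pi χ).ker.FiniteIndex := Subgroup.finiteIndex_ker _
    infer_instance
  have hFt : Fintype (GK i₀ ⧸ H) := Fintype.ofFinite _
  have hopen : IsOpen (H : Set (GK i₀)) := by
    have e : (H : Set (GK i₀)) = ⋂ j, {σ : GK i₀ | σ (s j) = s j} := by
      ext σ
      rw [SetLike.mem_coe, hH, Set.mem_iInter]
      rfl
    rw [e]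
    exact isOpen_iInter_of_finite fun j =>
      (Pool.Agent.W309.TD.locConst_apply (K := KK i₀) (Ω := QB) (s j)).isOpen_fiber (s j)
  set χT : Finset (Fin m) → GK i₀ →* ℤˣ := fun T => ∏ j ∈ T, χ j with hχT
  have hT1 : ∀ T, ∀ σ ∈ H, χT T σ = 1 := by
    intro T σ hσ
    rw [hχT]
    show (∏ j ∈ T, χ j) σ = 1
    rw [MonoidHom.finsetProd_apply]
    exact Finset.prod_eq_one fun j _ => (hχ1 j σ).2 ((hH σ).1 hσ j)
  have hsum : ∀ σ, σ ∉ H → ∑ T, sg (χT T) σ = 0 := by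
    intro σ hσ
    have e1 : ∀ T, sg (χT T) σ = ∏ j ∈ T, sg (χ j) σ := by
      intro T
      rw [hχT]
      show ((((∏ j ∈ T, χ j) σ : ℤˣ) : ℤ) : ℚ_[2]) = _
      rw [MonoidHom.finsetProd_apply, Units.coe_prod, Int.cast_prod]
      rfl
    rw [Finset.sum_congr rfl fun T _ => e1 T]
    have e2 : ∏ j : Fin m, (1 + sg (χ j) σ) = ∑ T, ∏ j ∈ T, sg (χ j) σ := by
      rw [Finset.prod_one_add]
      rw [Finset.powerset_univ]
    rw [← e2]
    rw [hH] at hσ
    push Not at hσ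
    obtain ⟨j, hj⟩ := hσ
    apply Finset.prod_eq_zero (Finset.mem_univ j)
    have h3 : χ j σ = -1 := by
      rcases Int.units_eq_one_or (χ j σ) with h4 | h4
      · exact absurd ((hχ1 j σ).1 h4) hj
      · exact h4
    unfold sg
    rw [h3]
    simp
  set k₀ : Fin n := ⟨0, hn0⟩ with hk₀
  have hst1 : ∀ σ ∈ (IIs ι₁ : Subgroup (GK i₀)), ∀ v : (Fin n → Fin 2) → ℚ_[2],
      (∀ b ∈ {x : Fin n → Fin 2 | (cn x 0 : ℤ) ≤ z}, v b = 0) →
      ∀ b ∈ {x : Fin n → Fin 2 | (cn x 0 : ℤ) ≤ z}, tR ρ ψ i σ v b = 0 := by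
    intro σ hσ v hv x hx
    obtain ⟨z', rfl⟩ := Int.eq_ofNat_of_zero_le (le_trans (Int.natCast_nonneg _)
      (show (cn x 0 : ℤ) ≤ z from hx))
    have hx' : cn x 0 ≤ z' := by exact_mod_cast (show (cn x 0 : ℤ) ≤ (z' : ℤ) from hx)
    refine tR_stable ρ ψ i (t := 0) (m := z') (fun k t ht => ?_) (fun b hb => hv b (by
      show (cn b 0 : ℤ) ≤ z'
      exact_mod_cast hb)) x hx'
    have h01 : ∀ s : Fin 2, s ≠ 0 → s = 1 := by decide
    rw [h01 t ht]
    exact (hρ k).d1 σ (II_sub hσ)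
  have hst2 : ∀ σ ∈ (IIs ι₂ : Subgroup (GK i₀)), ∀ v : (Fin n → Fin 2) → ℚ_[2],
      (∀ b ∈ {x : Fin n → Fin 2 | (cn x 1 : ℤ) ≤ z}, v b = 0) →
      ∀ b ∈ {x : Fin n → Fin 2 | (cn x 1 : ℤ) ≤ z}, tR ρ ψ i σ v b = 0 := by
    intro σ hσ v hv x hx
    obtain ⟨z', rfl⟩ := Int.eq_ofNat_of_zero_le (le_trans (Int.natCast_nonneg _)
      (show (cn x 1 : ℤ) ≤ z from hx))
    have hx' : cn x 1 ≤ z' := by exact_mod_cast (show (cn x 1 : ℤ) ≤ (z' : ℤ) from hx)
    refine tR_stable ρ ψ i (t := 1) (m := z') (fun k t ht => ?_) (fun b hb => hv b (by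
      show (cn b 1 : ℤ) ≤ z'
      exact_mod_cast hb)) x hx'
    have h10 : ∀ s : Fin 2, s ≠ 1 → s = 0 := by decide
    rw [h10 t ht]
    exact (hρ k).d2 σ (II_sub hσ)
  -- the dimension of the part of one twist
  have hpart : ∀ (T : Finset (Fin m)) (g : Fin (F.card + 1) → GK i₀ → (Fin n → Fin 2) → ℚ_[2]),
      (∀ j, LS H (tR ρ ψ i) {x | (cn x 0 : ℤ) ≤ z} {x | (cn x 1 : ℤ) ≤ z} ι₁ ι₂ (g j)) →
      ∃ x : Fin (F.card + 1) → ℚ_[2], x ≠ 0 ∧ ∃ y, ∀ σ,
        ∑ j, x j • cor (H := H) (tR ρ ψ i) (χT T) (g j) σ = twR (tR ρ ψ i) (χT T) σ y - y := by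
    intro T g hg'
    obtain ⟨N, q, D, e, hg⟩ := hgood T
    set sT : QB := ∏ j ∈ T, s j with hsT
    have hsT0 : sT ≠ 0 := Finset.prod_ne_zero_iff.2 fun j _ => hsne j
    have hsTσ : ∀ σ : GK i₀, σ sT = (((χT T σ : ℤˣ) : ℤ) : QB) * sT := fun σ =>
      prod_chs χ hχs T σ
    have hsT2 : sT ^ 2 = em hi (∏ j ∈ T, δ j) := by
      rw [hsT, ← Finset.prod_pow, map_prod]
      exact Finset.prod_congr rfl fun j _ => hs j
    -- the square roots of the twists
    set rk' : Fin n → QB := fun k => rk k * if k = k₀ then sT else 1 with hrk'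
    set d' : Fin n → OO := fun k => d k * if k = k₀ then ∏ j ∈ T, δ j else 1 with hd'
    have hrk2 : ∀ k, rk' k ^ 2 = em hi (d' k) := by
      intro k
      simp only [hrk', hd']
      rw [mul_pow, hrk k, map_mul]
      congr 1
      split_ifs
      · exact hsT2
      · rw [one_pow, map_one]
    have hprk : ∏ k, rk' k = (∏ k, rk k) * sT := by
      simp only [hrk']
      rw [Finset.prod_mul_distrib, Finset.prod_ite_eq', if_pos (Finset.mem_univ _)]
    have hs' : e * s₀ ≠ 0 := mul_ne_zero hg.ne hs₀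
    have hems : em hi (e * s₀) ≠ 0 := em_ne hi hs'
    have hrs : (∏ k, rk' k) / em hi (e * s₀) * em hi (e * s₀) = ∏ k, rk' k := div_mul_cancel₀ _ hems
    have hr : ((∏ k, rk' k) / em hi (e * s₀)) ^ 2 = em hi D := by
      rw [div_pow, div_eq_iff (pow_ne_zero _ hems), hprk, mul_pow, hsT2, ← Finset.prod_pow]
      simp only [hrk]
      rw [← map_prod, hprod, ← map_mul, ← map_pow, ← map_mul]
      congr 1
      have h3 := hg.eq
      linear_combination s₀ ^ 2 * h3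
    have hρ' : ∀ k, Rho hi (a k) (b k) (c k) (rk' k) I ι₁ ι₂ (twF ρ k₀ (χT T) k) := by
      intro k
      simp only [hrk']
      unfold twF
      split_ifs with hk
      · exact rho_tw (hρ k) hsT0 hsTσ
      · rw [mul_one]
        exact hρ k
    have hV : ∀ j, VCoc (tR (twF ρ k₀ (χT T)) ψ i) (cor (H := H) (tR ρ ψ i) (χT T) (g j)) := by
      intro j
      rw [tR_twF]
      exact ⟨cor_cont hopen (hg' j).cont, cor_mul (hT1 T) (hg' j).mul⟩
    obtain ⟨x, hx, y, hy⟩ := Pool.Agent.K3h12.DM.pdim hi hLT hC2 hg.pr hg.inj hg.five hg.ind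
      hg.prod hr hI hι₁ hι₂ hρ' hrk2 hs' hrs h0
      (fun k π hπ h3 h4 => ⟨hneg k π hπ h3 h4, hg.bad k π hπ h3 h4⟩) tc z F hF
      (fun j => cor (H := H) (tR ρ ψ i) (χT T) (g j)) hV
      (fun j p _ ι hp => by
        have h3 : VCobS (twR (tR ρ ψ i) (χT T)) Set.univ (IIs ι : Subgroup (GK i₀))
            (cor (H := H) (tR ρ ψ i) (χT T) (g j)) := by
          refine cor_local (hT1 T) (hg' j).mul ?_ ?_
          · intro σ _ v hv b _
            have hv0 : v = 0 := funext fun b => hv b (Set.mem_univ _)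
            rw [hv0, map_zero]
            rfl
          · intro γ
            obtain ⟨y, hy⟩ := (hg' j).odd p (ι.comp ((γ : QB →ₐ[KK i₀] QB).restrictScalars ℚ)) hp
            refine ⟨tR ρ ψ i γ y, fun σ hσ hσH b _ => ?_⟩
            have hm : γ⁻¹ * σ * γ ∈ H := by
              have h4 := hN.conj_mem σ hσH γ⁻¹
              rwa [inv_inv] at h4
            rw [hy _ (conj_II hσ γ) hm, map_sub, ← RM, ← RM]
            group
        obtain ⟨y, hy⟩ := h3
        refine ⟨y, fun σ hσ => ?_⟩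
        funext b
        rw [hy σ hσ b (Set.mem_univ _), tR_twF])
      (fun j => by
        rw [tR_twF]
        refine cor_local (hT1 T) (hg' j).mul hst1 fun γ => ?_
        obtain ⟨y, hy⟩ := (hg' j).one γ
        exact ⟨y, fun σ hσ hσH b hb => hy σ hσ hσH b hb⟩)
      (fun j => by
        rw [tR_twF]
        refine cor_local (hT1 T) (hg' j).mul hst2 fun γ => ?_
        obtain ⟨y, hy⟩ := (hg' j).two γ
        exact ⟨y, fun σ hσ hσH b hb => hy σ hσ hσH b hb⟩)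
    refine ⟨x, hx, y, fun σ => ?_⟩
    rw [hy σ, tR_twF]
  -- the subspaces
  let W : Finset (Fin m) → Submodule ℚ_[2] (Fin (2 ^ m * F.card + 1) → ℚ_[2]) := fun T =>
    { carrier := {l | ∃ y, ∀ σ, cor (H := H) (tR ρ ψ i) (χT T) (comb f l) σ =
        twR (tR ρ ψ i) (χT T) σ y - y}
      add_mem' := by
        rintro l l' ⟨y, hy⟩ ⟨y', hy'⟩
        refine ⟨y + y', fun σ => ?_⟩
        have e : cor (H := H) (tR ρ ψ i) (χT T) (comb f (l + l')) σ =
            cor (H := H) (tR ρ ψ i) (χT T) (comb f l) σ +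
            cor (H := H) (tR ρ ψ i) (χT T) (comb f l') σ := by
          rw [cor_comb, cor_comb, cor_comb, ← Finset.sum_add_distrib]
          exact Finset.sum_congr rfl fun j _ => by rw [Pi.add_apply, add_smul]
        rw [e, hy, hy', map_add]
        abel
      zero_mem' := by
        refine ⟨0, fun σ => ?_⟩
        rw [cor_comb, map_zero, sub_zero]
        exact Finset.sum_eq_zero fun j _ => by rw [Pi.zero_apply, zero_smul]
      smul_mem' := by
        rintro t l ⟨y, hy⟩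
        refine ⟨t • y, fun σ => ?_⟩
        have e : cor (H := H) (tR ρ ψ i) (χT T) (comb f (t • l)) σ =
            t • cor (H := H) (tR ρ ψ i) (χT T) (comb f l) σ := by
          rw [cor_comb, cor_comb, Finset.smul_sum]
          exact Finset.sum_congr rfl fun j _ => by rw [Pi.smul_apply, smul_assoc]
        rw [e, hy, map_smul, smul_sub] }
  have hW : ∀ T, ∀ l : Fin (F.card + 1) → (Fin (2 ^ m * F.card + 1) → ℚ_[2]),
      ∃ x : Fin (F.card + 1) → ℚ_[2], x ≠ 0 ∧ ∑ a, x a • l a ∈ W T := by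
    intro T l
    obtain ⟨x, hx, y, hy⟩ := hpart T (fun a => comb f (l a)) fun a => LS.comb hf (l a)
    refine ⟨x, hx, y, fun σ => ?_⟩
    rw [← hy σ, cor_comb]
    have e : ∀ a, cor (H := H) (tR ρ ψ i) (χT T) (comb f (l a)) σ =
        ∑ j, l a j • cor (H := H) (tR ρ ψ i) (χT T) (f j) σ := fun a => cor_comb _ _ _
    simp only [e, Finset.smul_sum, Finset.sum_apply, Pi.smul_apply, smul_eq_mul, Finset.sum_smul,
      smul_smul]
    rw [Finset.sum_comm]
  obtain ⟨l, hl, hlW⟩ := common_vector W hW (by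
    rw [Fintype.card_finset, Fintype.card_fin]
    exact Nat.lt_succ_self _)
  refine ⟨l, hl, ?_⟩
  exact cor_global (H := H) (J := Finset (Fin m)) (χ := χT) (c := comb f l) hT1 hsum
    (LS.comb hf l).mul hlW

end Pool.Agent.K3h45.ST
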