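import Pool.Agent.R384.Inf2
import Pool.Agent.R384.Vec

/-!
# Project ST (helper45), MP_76188c_nt: semistable classes over infinite multiquadratic towers.
Statements of the bricks.

`OO = ℤ[ω]`, `Fac`, `Sqm`, `Pr`, `Indec`, `VCoc`, `VCobS` are in `Pool/Agent/R384`.
-/

set_option autoImplicit false

namespace Pool.Agent.K3h45.ST

open Pool.Agent.R384

/-- **INF**: twists with infinite towers. -/
def S_INF : Prop := ∀ m : OO, m ≠ 0 → (∀ π : OO, Prime π → ¬ π ∣ 2 → π ∣ m → Sqm π (-1)) →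
  {D : OO | (∃ q : Fin 2 → OO, Fac q ∧ D = ∏ i, q i) ∧
    (∀ π : OO, Prime π → ¬ π ∣ 2 → π ∣ m → ¬ Sqm π D) ∧
    ∃ l : ℕ → ℕ, Function.Injective l ∧
      (∀ j, (l j).Prime ∧ l j % 8 = 1 ∧ Prime ((l j : ℤ) : OO)) ∧
      ∀ T : Finset ℕ,
        (∃ (N : ℕ) (q : Fin N → OO), Fac q ∧ D * ∏ j ∈ T, ((l j : ℤ) : OO) = ∏ i, q i) ∧
        ∀ π : OO, Prime π → ¬ π ∣ 2 → π ∣ m → ¬ Sqm π (D * ∏ j ∈ T, ((l j : ℤ) : OO))}.Infinite

/-- the twist of a representation by a character with the values `± 1` -/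
noncomputable def twR {B G : Type} [Group G] (R : Representation ℚ_[2] G (B → ℚ_[2]))
    (χ : G →* ℤˣ) : Representation ℚ_[2] G (B → ℚ_[2]) where
  toFun σ := (((χ σ : ℤˣ) : ℤ) : ℚ_[2]) • R σ
  map_one' := by
    rw [map_one, map_one]
    simp
  map_mul' σ τ := by
    rw [map_mul, map_mul]
    apply LinearMap.ext
    intro v
    simp only [LinearMap.smul_apply, Module.End.mul_apply, map_smul, Units.val_mul, Int.cast_mul,
      smul_smul]
    rw [mul_comm]

end Pool.Agent.K3h45.ST
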