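import Pool.Agent.K3h45.ST.Cor
import Pool.Agent.K3h12.SS.Van

/-!
# Quadratic twists of the representations on the Tate modules
-/

set_option autoImplicit false
set_option linter.unusedSectionVars false

namespace Pool.Agent.K3h45.ST

open Pool.Agent.R384
open Pool.Agent.Y715.Red Pool.Agent.Y715.Nr Pool.Agent.W237.RK
open Pool.Agent.Y715.Gi (QB KK GK i₀_mem gk_fix)
open Pool.Agent.Y715.Df (Cmp exists_cmp)

open scoped Classical

variable {i₀ : QB}

/-- the inertia group as a subgroup -/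
def IIs {p : ℕ} [Fact p.Prime] (ι : QB →ₐ[ℚ] PadicAlgCl p) : Subgroup (GK i₀) where
  carrier := II ι
  mul_mem' := by
    rintro a b ⟨t, h1, h2⟩ ⟨t', h3, h4⟩
    refine ⟨t * t', h1.mul h3, fun z hz => ?_⟩
    have e : (t * t') z - z = (t (t' z) - t' z) + (t' z - z) := by
      rw [AlgEquiv.mul_apply]
      ring
    rw [e]
    exact add_lt (h2 _ (by rwa [nrm])) (h4 z hz)
  one_mem' := ⟨1, fun x => rfl, fun z _ => by
    rw [AlgEquiv.one_apply, sub_self, norm_zero]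
    exact one_pos⟩
  inv_mem' := by
    rintro a ⟨t, h1, h2⟩
    refine ⟨t⁻¹, Pool.Agent.K3h12.SS.cmp_inv h1, fun z hz => ?_⟩
    have e : t⁻¹ z - z = -(t (t⁻¹ z) - t⁻¹ z) := by
      rw [← AlgEquiv.mul_apply t t⁻¹, mul_inv_cancel, AlgEquiv.one_apply]
      ring
    rw [e, norm_neg]
    exact h2 _ (by rwa [nrm])

lemma mem_IIs {p : ℕ} [Fact p.Prime] {ι : QB →ₐ[ℚ] PadicAlgCl p} {σ : GK i₀} :
    σ ∈ IIs ι ↔ σ ∈ (II ι : Set (GK i₀)) := Iff.rfl

/-- conjugates of the inertia groups -/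
lemma conj_II {p : ℕ} [Fact p.Prime] {ι : QB →ₐ[ℚ] PadicAlgCl p} {σ : GK i₀}
    (h : σ ∈ (II ι : Set (GK i₀))) (g : GK i₀) :
    g⁻¹ * σ * g ∈ (II (ι.comp ((g : QB →ₐ[KK i₀] QB).restrictScalars ℚ)) : Set (GK i₀)) := by
  obtain ⟨t, h1, h2⟩ := h
  refine ⟨t, fun x => ?_, h2⟩
  show t (ι (g x)) = ι (g ((g⁻¹ * σ * g) x))
  rw [h1 (g x), ← AlgEquiv.mul_apply g, ← AlgEquiv.mul_apply σ]
  congr 2
  group

/-! ### characters -/

lemma ne_neg {s : QB} (h0 : s ≠ 0) : -s ≠ s := by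
  intro h
  apply h0
  have h1 : (2 : QB) * s = 0 := by linear_combination -h
  rcases mul_eq_zero.1 h1 with h2 | h2
  · norm_num at h2
  · exact h2

/-- the character of a square root -/
noncomputable def chs (s : QB) (h : ∀ σ : GK i₀, σ s = s ∨ σ s = -s) (h0 : s ≠ 0) :
    GK i₀ →* ℤˣ where
  toFun σ := if σ s = s then 1 else -1
  map_one' := if_pos rfl
  map_mul' σ τ := by
    have e : (σ * τ) s = σ (τ s) := rfl
    have hn := ne_neg h0
    rcases h σ with h1 | h1 <;> rcases h τ with h2 | h2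
    · rw [e, h2, h1]; simp
    · rw [e, h2, map_neg, h1, if_neg hn, if_pos rfl]; simp
    · rw [e, h2, h1, if_neg hn, if_pos rfl]; simp
    · rw [e, h2, map_neg, h1, neg_neg, if_pos rfl, if_neg hn]; simp

lemma chs_apply (s : QB) (h : ∀ σ : GK i₀, σ s = s ∨ σ s = -s) (h0 : s ≠ 0) (σ : GK i₀) :
    σ s = (((chs s h h0 σ : ℤˣ) : ℤ) : QB) * s := by
  have e : chs s h h0 σ = if σ s = s then 1 else -1 := rfl
  rw [e]
  rcases h σ with h1 | h1
  · rw [if_pos h1, h1]; simp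
  · rw [if_neg (by rw [h1]; exact ne_neg h0), h1]; simp

lemma chs_one {s : QB} {h : ∀ σ : GK i₀, σ s = s ∨ σ s = -s} {h0 : s ≠ 0} {σ : GK i₀} :
    chs s h h0 σ = 1 ↔ σ s = s := by
  have e : chs s h h0 σ = if σ s = s then 1 else -1 := rfl
  rw [e]
  split_ifs with h1
  · simp [h1]
  · simp [h1]

lemma prod_chs {m : ℕ} {s : Fin m → QB} (χ : Fin m → GK i₀ →* ℤˣ)
    (h : ∀ i σ, σ (s i) = (((χ i σ : ℤˣ) : ℤ) : QB) * s i) (T : Finset (Fin m)) (σ : GK i₀) :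
    σ (∏ i ∈ T, s i) = ((((∏ i ∈ T, χ i) σ : ℤˣ) : ℤ) : QB) * ∏ i ∈ T, s i := by
  rw [map_prod, MonoidHom.finsetProd_apply, Units.coe_prod, Int.cast_prod, ← Finset.prod_mul_distrib]
  exact Finset.prod_congr rfl fun i _ => h i σ

lemma chi_eq {χ : GK i₀ →* ℤˣ} {s : QB} (h0 : s ≠ 0)
    (h : ∀ σ, σ s = (((χ σ : ℤˣ) : ℤ) : QB) * s) (σ : GK i₀) :
    χ σ = if σ s = s then 1 else -1 := by
  have h1 := h σ
  rcases Int.units_eq_one_or (χ σ) with h2 | h2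
  · rw [h2] at h1 ⊢
    rw [if_pos (by rw [h1]; simp)]
  · rw [h2] at h1 ⊢
    rw [if_neg (by rw [h1]; simpa using ne_neg h0)]

lemma chi_lc {χ : GK i₀ →* ℤˣ} {s : QB} (h0 : s ≠ 0)
    (h : ∀ σ, σ s = (((χ σ : ℤˣ) : ℤ) : QB) * s) : IsLocallyConstant fun σ => χ σ := by
  have h1 := (Pool.Agent.W309.TD.locConst_apply (K := KK i₀) (Ω := QB) s).comp
    (fun x : QB => if x = s then (1 : ℤˣ) else -1)
  have e : (fun σ : GK i₀ => χ σ) = (fun x : QB => if x = s then (1 : ℤˣ) else -1) ∘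
      fun σ : GK i₀ => σ s := by
    funext σ
    exact chi_eq h0 h σ
  rw [e]
  exact h1

/-- the twist of a representation of rank two -/
noncomputable def twM {G : Type} [Group G] (ρ : G →* Matrix (Fin 2) (Fin 2) ℤ_[2]) (χ : G →* ℤˣ) :
    G →* Matrix (Fin 2) (Fin 2) ℤ_[2] where
  toFun σ := (((χ σ : ℤˣ) : ℤ) : ℤ_[2]) • ρ σ
  map_one' := by rw [map_one, map_one]; simp
  map_mul' σ τ := by
    rw [map_mul, map_mul, Units.val_mul, Int.cast_mul, Matrix.smul_mul, Matrix.mul_smul, smul_smul]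

lemma twM_apply {G : Type} [Group G] (ρ : G →* Matrix (Fin 2) (Fin 2) ℤ_[2]) (χ : G →* ℤˣ) (σ : G)
    (i j : Fin 2) : twM ρ χ σ i j = (((χ σ : ℤˣ) : ℤ) : ℤ_[2]) * ρ σ i j := rfl

lemma twM_one {G : Type} [Group G] {ρ : G →* Matrix (Fin 2) (Fin 2) ℤ_[2]} {χ : G →* ℤˣ} {σ : G}
    (h : χ σ = 1) : twM ρ χ σ = ρ σ := by
  show (((χ σ : ℤˣ) : ℤ) : ℤ_[2]) • ρ σ = ρ σ
  rw [h]; simp

lemma twM_neg {G : Type} [Group G] {ρ : G →* Matrix (Fin 2) (Fin 2) ℤ_[2]} {χ : G →* ℤˣ} {σ : G}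
    (h : χ σ = -1) : twM ρ χ σ = -ρ σ := by
  show (((χ σ : ℤˣ) : ℤ) : ℤ_[2]) • ρ σ = -ρ σ
  rw [h]; simp

/-- **Twists of the representation on the Tate module.** -/
theorem rho_tw {hi : i₀ ^ 2 = i₀ - 2} {a b c : OO} {r I s : QB} {ι₁ ι₂ : QB →ₐ[ℚ] PadicAlgCl 2}
    {ρ : GK i₀ →* Matrix (Fin 2) (Fin 2) ℤ_[2]} (h : Rho hi a b c r I ι₁ ι₂ ρ)
    {χ : GK i₀ →* ℤˣ} (h0 : s ≠ 0) (hs : ∀ σ, σ s = (((χ σ : ℤˣ) : ℤ) : QB) * s) :
    Rho hi a b c (r * s) I ι₁ ι₂ (twM ρ χ) := by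
  have hor : ∀ σ, χ σ = 1 ∧ σ s = s ∨ χ σ = -1 ∧ σ s = -s := by
    intro σ
    have h1 := hs σ
    rcases Int.units_eq_one_or (χ σ) with h2 | h2
    · left
      rw [h2] at h1
      exact ⟨h2, by rw [h1]; simp⟩
    · right
      rw [h2] at h1
      exact ⟨h2, by rw [h1]; simp⟩
  have can : ∀ {x y : QB}, x * s = y * s → x = y := fun h => mul_right_cancel₀ h0 h
  refine ⟨fun i j => ?_, fun σ i j hij => ?_, fun σ h1 => ?_, fun σ h1 => ?_, fun σ h1 => ?_,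
    fun σ h1 => ?_, fun σ hσ => ?_, fun σ hσ => ?_, ?_⟩
  · have h1 : Continuous fun σ : GK i₀ => (((χ σ : ℤˣ) : ℤ) : ℤ_[2]) :=
      ((chi_lc h0 hs).comp (fun x : ℤˣ => ((x : ℤ) : ℤ_[2]))).continuous
    exact h1.mul (h.cont i j)
  · rw [twM_apply]
    exact (h.off σ i j hij).mul_left _
  · rcases hor σ with ⟨h2, h3⟩ | ⟨h2, h3⟩
    · rw [twM_one h2]
      refine h.p0 σ (can ?_)
      rw [← mul_assoc, map_mul, h3] at h1
      exact h1
    · rw [twM_neg h2, Matrix.neg_apply]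
      have h4 := h.m0 σ (can ?_)
      · have e : -ρ σ 0 0 - 1 = -(ρ σ 0 0 + 1) := by ring
        rw [e]
        exact (dvd_neg).2 h4
      · rw [← mul_assoc, map_mul, h3] at h1
        linear_combination -h1
  · rcases hor σ with ⟨h2, h3⟩ | ⟨h2, h3⟩
    · rw [twM_one h2]
      refine h.m0 σ (can ?_)
      rw [← mul_assoc, map_mul, h3] at h1
      linear_combination h1
    · rw [twM_neg h2, Matrix.neg_apply]
      have h4 := h.p0 σ (can ?_)
      · have e : -ρ σ 0 0 + 1 = -(ρ σ 0 0 - 1) := by ring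
        rw [e]
        exact (dvd_neg).2 h4
      · rw [← mul_assoc, map_mul, h3] at h1
        linear_combination -h1
  · rcases hor σ with ⟨h2, h3⟩ | ⟨h2, h3⟩
    · rw [twM_one h2]
      refine h.p1 σ (can ?_)
      rw [map_mul, h3] at h1
      exact h1
    · rw [twM_neg h2, Matrix.neg_apply]
      have h4 := h.m1 σ (can ?_)
      · have e : -ρ σ 1 1 - 1 = -(ρ σ 1 1 + 1) := by ring
        rw [e]
        exact (dvd_neg).2 h4
      · rw [map_mul, h3] at h1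
        linear_combination -h1
  · rcases hor σ with ⟨h2, h3⟩ | ⟨h2, h3⟩
    · rw [twM_one h2]
      refine h.m1 σ (can ?_)
      rw [map_mul, h3] at h1
      linear_combination h1
    · rw [twM_neg h2, Matrix.neg_apply]
      have h4 := h.p1 σ (can ?_)
      · have e : -ρ σ 1 1 + 1 = -(ρ σ 1 1 - 1) := by ring
        rw [e]
        exact (dvd_neg).2 h4
      · rw [map_mul, h3] at h1
        linear_combination -h1
  · rw [twM_apply, h.d1 σ hσ, mul_zero]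
  · rw [twM_apply, h.d2 σ hσ, mul_zero]
  · intro p _ ι hp ha hb hc σ hσ
    obtain ⟨k1, k2⟩ := h.odd p ι hp ha hb hc σ hσ
    rcases hor σ with ⟨h2, h3⟩ | ⟨h2, h3⟩
    · rw [twM_one h2]
      refine ⟨fun h1 => k1 (can ?_), fun h1 => k2 (can ?_)⟩
      · rw [map_mul, h3] at h1
        exact h1
      · rw [map_mul, h3] at h1
        linear_combination h1
    · rw [twM_neg h2]
      refine ⟨fun h1 => ?_, fun h1 => ?_⟩
      · rw [k2 (can ?_), neg_neg]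
        rw [map_mul, h3] at h1
        linear_combination -h1
      · rw [k1 (can ?_)]
        rw [map_mul, h3] at h1
        linear_combination -h1

/-- the family with one representation twisted -/
noncomputable def twF {G : Type} [Group G] {n : ℕ} (ρ : Fin n → G →* Matrix (Fin 2) (Fin 2) ℤ_[2])
    (k₀ : Fin n) (χ : G →* ℤˣ) (k : Fin n) : G →* Matrix (Fin 2) (Fin 2) ℤ_[2] :=
  if k = k₀ then twM (ρ k) χ else ρ k

lemma tR_twF {G : Type} [Group G] {n : ℕ} (ρ : Fin n → G →* Matrix (Fin 2) (Fin 2) ℤ_[2])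
    (k₀ : Fin n) (χ : G →* ℤˣ) (ψ : G →* ℤ_[2]ˣ) (i : ℕ) :
    tR (twF ρ k₀ χ) ψ i = twR (tR ρ ψ i) χ := by
  apply MonoidHom.ext
  intro σ
  apply LinearMap.ext
  intro v
  funext α
  rw [twR_apply, Pi.smul_apply, tR_apply, tR_apply, smul_eq_mul, Finset.mul_sum]
  refine Finset.sum_congr rfl fun β _ => ?_
  rw [← mul_assoc]
  congr 1
  have h1 : ∀ k, twF ρ k₀ χ k σ (α k) (β k) =
      (if k = k₀ then (((χ σ : ℤˣ) : ℤ) : ℤ_[2]) else 1) * ρ k σ (α k) (β k) := by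
    intro k
    unfold twF
    split_ifs
    · exact twM_apply _ _ _ _ _
    · rw [one_mul]
  unfold tm sg
  rw [Finset.prod_congr rfl fun k _ => h1 k, Finset.prod_mul_distrib, Finset.prod_ite_eq']
  rw [if_pos (Finset.mem_univ _)]
  push_cast
  ring

end Pool.Agent.K3h45.ST
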