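import Pool.Agent.K3h45.ST.Tw

/-!
# The vanishing of the semistable classes over multiquadratic extensions
-/

set_option autoImplicit false
set_option linter.unusedSectionVars false

namespace Pool.Agent.K3h45.ST

open Pool.Agent.R384
open Pool.Agent.Y715.Red Pool.Agent.Y715.Nr Pool.Agent.W237.RK
open Pool.Agent.Y715.Gi (QB KK GK i₀_mem gk_fix)
open Pool.Agent.Y715.Df (Cmp exists_cmp)

open scoped Classical

/-- the data of a good twist -/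
structure GTw {n : ℕ} (a b c : Fin n → OO) (X : OO) (D e : OO) {N : ℕ} (q : Fin N → OO) : Prop where
  pr : ∀ j, Pr (q j)
  inj : Function.Injective q
  five : (8 : OO) ∣ ∏ j, q j - 5
  ind : Indec q
  prod : D = ∏ j, q j ∨ D = -∏ j, q j
  ne : e ≠ 0
  eq : X = D * e ^ 2
  bad : ∀ k π, Prime π → ¬ π ∣ 2 → π ∣ a k * b k * c k → ¬ Sqm π D

lemma GTw.D_ne {n : ℕ} {a b c : Fin n → OO} {X D e : OO} {N : ℕ} {q : Fin N → OO}
    (h : GTw a b c X D e q) : D ≠ 0 := by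
  have hpne : ∏ j, q j ≠ 0 := Finset.prod_ne_zero_iff.2 fun j _ => (h.pr j).prime.ne_zero
  rcases h.prod with h1 | h1
  · rwa [h1]
  · rw [h1]; exact neg_ne_zero.2 hpne

section

variable {i₀ : QB} (hi : i₀ ^ 2 = i₀ - 2)
variable {D₀ s₀ : OO} {I : QB} {ι₁ ι₂ : QB →ₐ[ℚ] PadicAlgCl 2} {n i : ℕ} {a b c d : Fin n → OO}
  {rk : Fin n → QB} {ρ : Fin n → GK i₀ →* Matrix (Fin 2) (Fin 2) ℤ_[2]}

/-- **The vanishing theorem over multiquadratic extensions.** -/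
theorem tower_vanish (hI : I ^ 2 = -1) (hι₁ : ‖ι₁ i₀‖ < 1) (hι₂ : ‖ι₂ (1 - i₀)‖ < 1)
    (hn0 : 0 < n) (hn : n ≤ 2 * i + 1)
    (hρ : ∀ k, Rho hi (a k) (b k) (c k) (rk k) I ι₁ ι₂ (ρ k))
    (hrk : ∀ k, rk k ^ 2 = em hi (d k)) (hs₀ : s₀ ≠ 0) (hprod : ∏ k, d k = D₀ * s₀ ^ 2)
    (h0 : ∀ k, a k * b k * c k ≠ 0)
    (hneg : ∀ k π, Prime π → ¬ π ∣ 2 → π ∣ a k * b k * c k → Sqm π (-1))
    {m : ℕ} {δ : Fin m → OO} {s : Fin m → QB} (hs : ∀ j, s j ^ 2 = em hi (δ j))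
    (hgood : ∀ T : Finset (Fin m), ∃ (N : ℕ) (q : Fin N → OO) (D e : OO),
      GTw a b c (D₀ * ∏ j ∈ T, δ j) D e q)
    {H : Subgroup (GK i₀)} (hH : ∀ σ, σ ∈ H ↔ ∀ j, σ (s j) = s j)
    {f : GK i₀ → (Fin n → Fin 2) → ℚ_[2]} (hfc : ContinuousOn f H)
    (hfm : ∀ σ ∈ H, ∀ τ ∈ H, f (σ * τ) = f σ + tR ρ (cyc i₀) i σ (f τ))
    (hodd : ∀ (p : ℕ) [Fact p.Prime] (ι : QB →ₐ[ℚ] PadicAlgCl p), p ≠ 2 →
      ∃ y, ∀ σ ∈ (II ι : Set (GK i₀)), σ ∈ H → f σ = tR ρ (cyc i₀) i σ y - y)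
    (h1 : ∀ g : GK i₀, ∃ y, ∀ σ ∈ (II ι₁ : Set (GK i₀)), σ ∈ H → ∀ x, cn x 0 ≤ i →
      tR ρ (cyc i₀) i g (f (g⁻¹ * σ * g)) x = (tR ρ (cyc i₀) i σ y - y) x)
    (h2 : ∀ g : GK i₀, ∃ y, ∀ σ ∈ (II ι₂ : Set (GK i₀)), σ ∈ H → ∀ x, cn x 1 ≤ i →
      tR ρ (cyc i₀) i g (f (g⁻¹ * σ * g)) x = (tR ρ (cyc i₀) i σ y - y) x) :
    ∃ y, ∀ σ ∈ H, f σ = tR ρ (cyc i₀) i σ y - y := by
  -- the square roots
  have hX : ∀ T : Finset (Fin m), D₀ * ∏ j ∈ T, δ j ≠ 0 := by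
    intro T
    obtain ⟨N, q, D, e, h⟩ := hgood T
    rw [h.eq]
    exact mul_ne_zero h.D_ne (pow_ne_zero _ h.ne)
  have hδ : ∀ j, δ j ≠ 0 := by
    intro j hj
    apply hX {j}
    rw [Finset.prod_singleton, hj, mul_zero]
  have hsne : ∀ j, s j ≠ 0 := by
    intro j hj
    have h3 := hs j
    rw [hj, zero_pow two_ne_zero] at h3
    exact em_ne hi (hδ j) h3.symm
  have hor : ∀ j (σ : GK i₀), σ (s j) = s j ∨ σ (s j) = -s j := fun j σ => rt_or hi (hs j) σ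
  set χ : Fin m → GK i₀ →* ℤˣ := fun j => chs (s j) (hor j) (hsne j) with hχ
  have hχs : ∀ j σ, σ (s j) = (((χ j σ : ℤˣ) : ℤ) : QB) * s j := fun j σ =>
    chs_apply (s j) (hor j) (hsne j) σ
  have hχ1 : ∀ j σ, χ j σ = 1 ↔ σ (s j) = s j := fun j σ =>
    chs_one (s := s j) (h := hor j) (h0 := hsne j)
  -- the subgroup
  have hker : H = (MonoidHom.pi χ).ker := by
    ext σ
    rw [hH, MonoidHom.mem_ker]
    constructor
    · intro h
      funext j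
      exact (hχ1 j σ).2 (h j)
    · intro h j
      exact (hχ1 j σ).1 (congrFun h j)
  have hN : H.Normal := by
    rw [hker]
    infer_instance
  have hFin : Finite (GK i₀ ⧸ H) := by
    rw [hker]
    have : (MonoidHom.pi χ).ker.FiniteIndex := Subgroup.finiteIndex_ker _
    infer_instance
  have hFt : Fintype (GK i₀ ⧸ H) := Fintype.ofFinite _
  have hopen : IsOpen (H : Set (GK i₀)) := by
    have e : (H : Set (GK i₀)) = ⋂ j, {σ : GK i₀ | σ (s j) = s j} := by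
      ext σ
      rw [SetLike.mem_coe, hH, Set.mem_iInter]
      rfl
    rw [e]
    exact isOpen_iInter_of_finite fun j =>
      (Pool.Agent.W309.TD.locConst_apply (K := KK i₀) (Ω := QB) (s j)).isOpen_fiber (s j)
  set χT : Finset (Fin m) → GK i₀ →* ℤˣ := fun T => ∏ j ∈ T, χ j with hχT
  have hT1 : ∀ T, ∀ σ ∈ H, χT T σ = 1 := by
    intro T σ hσ
    rw [hχT]
    show (∏ j ∈ T, χ j) σ = 1
    rw [MonoidHom.finsetProd_apply]
    exact Finset.prod_eq_one fun j _ => (hχ1 j σ).2 ((hH σ).1 hσ j)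
  have hsum : ∀ σ, σ ∉ H → ∑ T, sg (χT T) σ = 0 := by
    intro σ hσ
    have e1 : ∀ T, sg (χT T) σ = ∏ j ∈ T, sg (χ j) σ := by
      intro T
      rw [hχT]
      show ((((∏ j ∈ T, χ j) σ : ℤˣ) : ℤ) : ℚ_[2]) = _
      rw [MonoidHom.finsetProd_apply, Units.coe_prod, Int.cast_prod]
      rfl
    rw [Finset.sum_congr rfl fun T _ => e1 T]
    have e2 : ∏ j : Fin m, (1 + sg (χ j) σ) = ∑ T, ∏ j ∈ T, sg (χ j) σ := by
      rw [Finset.prod_one_add]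
      rw [Finset.powerset_univ]
    rw [← e2]
    rw [hH] at hσ
    push Not at hσ
    obtain ⟨j, hj⟩ := hσ
    apply Finset.prod_eq_zero (Finset.mem_univ j)
    have h3 : χ j σ = -1 := by
      rcases Int.units_eq_one_or (χ j σ) with h4 | h4
      · exact absurd ((hχ1 j σ).1 h4) hj
      · exact h4
    unfold sg
    rw [h3]
    simp
  set k₀ : Fin n := ⟨0, hn0⟩ with hk₀
  have hst1 : ∀ σ ∈ (IIs ι₁ : Subgroup (GK i₀)), ∀ v : (Fin n → Fin 2) → ℚ_[2],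
      (∀ b ∈ {x | cn x 0 ≤ i}, v b = 0) → ∀ b ∈ {x : Fin n → Fin 2 | cn x 0 ≤ i},
      tR ρ (cyc i₀) i σ v b = 0 := by
    intro σ hσ v hv b hb
    refine tR_stable ρ (cyc i₀) i (t := 0) (m := i) (fun k t ht => ?_) (fun b hb => hv b hb) b hb
    have h01 : ∀ s : Fin 2, s ≠ 0 → s = 1 := by decide
    rw [h01 t ht]
    exact (hρ k).d1 σ (II_sub hσ)
  have hst2 : ∀ σ ∈ (IIs ι₂ : Subgroup (GK i₀)), ∀ v : (Fin n → Fin 2) → ℚ_[2],
      (∀ b ∈ {x | cn x 1 ≤ i}, v b = 0) → ∀ b ∈ {x : Fin n → Fin 2 | cn x 1 ≤ i},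
      tR ρ (cyc i₀) i σ v b = 0 := by
    intro σ hσ v hv b hb
    refine tR_stable ρ (cyc i₀) i (t := 1) (m := i) (fun k t ht => ?_) (fun b hb => hv b hb) b hb
    have h10 : ∀ s : Fin 2, s ≠ 1 → s = 0 := by decide
    rw [h10 t ht]
    exact (hρ k).d2 σ (II_sub hσ)
  refine cor_global (H := H) (J := Finset (Fin m)) (χ := χT) hT1 hsum hfm fun T => ?_
  obtain ⟨N, q, D, e, hg⟩ := hgood T
  set sT : QB := ∏ j ∈ T, s j with hsT
  have hsT0 : sT ≠ 0 := Finset.prod_ne_zero_iff.2 fun j _ => hsne j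
  have hsTσ : ∀ σ : GK i₀, σ sT = (((χT T σ : ℤˣ) : ℤ) : QB) * sT := fun σ =>
    prod_chs χ hχs T σ
  have hsT2 : sT ^ 2 = em hi (∏ j ∈ T, δ j) := by
    rw [hsT, ← Finset.prod_pow, map_prod]
    exact Finset.prod_congr rfl fun j _ => hs j
  -- the square roots of the twists
  set rk' : Fin n → QB := fun k => rk k * if k = k₀ then sT else 1 with hrk'
  set d' : Fin n → OO := fun k => d k * if k = k₀ then ∏ j ∈ T, δ j else 1 with hd'
  have hrk2 : ∀ k, rk' k ^ 2 = em hi (d' k) := by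
    intro k
    simp only [hrk', hd']
    rw [mul_pow, hrk k, map_mul]
    congr 1
    split_ifs
    · exact hsT2
    · rw [one_pow, map_one]
  have hprk : ∏ k, rk' k = (∏ k, rk k) * sT := by
    simp only [hrk']
    rw [Finset.prod_mul_distrib, Finset.prod_ite_eq', if_pos (Finset.mem_univ _)]
  have hs' : e * s₀ ≠ 0 := mul_ne_zero hg.ne hs₀
  have hems : em hi (e * s₀) ≠ 0 := em_ne hi hs'
  have hrs : (∏ k, rk' k) / em hi (e * s₀) * em hi (e * s₀) = ∏ k, rk' k := div_mul_cancel₀ _ hems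
  have hr : ((∏ k, rk' k) / em hi (e * s₀)) ^ 2 = em hi D := by
    rw [div_pow, div_eq_iff (pow_ne_zero _ hems), hprk, mul_pow, hsT2, ← Finset.prod_pow]
    simp only [hrk]
    rw [← map_prod, hprod, ← map_mul, ← map_pow, ← map_mul]
    congr 1
    have h3 := hg.eq
    linear_combination s₀ ^ 2 * h3
  have hρ' : ∀ k, Rho hi (a k) (b k) (c k) (rk' k) I ι₁ ι₂ (twF ρ k₀ (χT T) k) := by
    intro k
    simp only [hrk']
    unfold twF
    split_ifs with hk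
    · exact rho_tw (hρ k) hsT0 hsTσ
    · rw [mul_one]
      exact hρ k
  have hV : VCoc (twR (tR ρ (cyc i₀) i) (χT T)) (cor (H := H) (tR ρ (cyc i₀) i) (χT T) f) :=
    ⟨cor_cont hopen hfc, cor_mul (hT1 T) hfm⟩
  rw [← tR_twF ρ k₀ (χT T) (cyc i₀) i] at hV
  suffices hmain : ∃ y, ∀ σ, cor (H := H) (tR ρ (cyc i₀) i) (χT T) f σ =
      tR (twF ρ k₀ (χT T)) (cyc i₀) i σ y - y by
    obtain ⟨y, hy⟩ := hmain
    refine ⟨y, fun σ => ?_⟩
    rw [hy σ, tR_twF]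
  refine Pool.Agent.K3h12.SS.prod_vanish_all hi hg.pr hg.inj hg.five hg.ind hg.prod hr hI
    hι₁ hι₂ hn hρ' hrk2 hs' hrs h0 (fun k π hπ h3 h4 => ⟨hneg k π hπ h3 h4, hg.bad k π hπ h3 h4⟩) hV
    ?_ ?_ ?_
  · intro p _ ι hp
    have h3 : VCobS (twR (tR ρ (cyc i₀) i) (χT T)) Set.univ (IIs ι : Subgroup (GK i₀))
        (cor (H := H) (tR ρ (cyc i₀) i) (χT T) f) := by
      refine cor_local (hT1 T) hfm ?_ ?_
      · intro σ _ v hv b _
        have hv0 : v = 0 := funext fun b => hv b (Set.mem_univ _)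
        rw [hv0, map_zero]
        rfl
      · intro g
        obtain ⟨y, hy⟩ := hodd p (ι.comp ((g : QB →ₐ[KK i₀] QB).restrictScalars ℚ)) hp
        refine ⟨tR ρ (cyc i₀) i g y, fun σ hσ hσH b _ => ?_⟩
        have hm : g⁻¹ * σ * g ∈ H := by
          have h4 := hN.conj_mem σ hσH g⁻¹
          rwa [inv_inv] at h4
        rw [hy _ (conj_II hσ g) hm, map_sub, ← RM, ← RM]
        group
    obtain ⟨y, hy⟩ := h3
    refine ⟨y, fun σ hσ => ?_⟩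
    funext b
    rw [hy σ hσ b (Set.mem_univ _), tR_twF]
  · have h3 : VCobS (twR (tR ρ (cyc i₀) i) (χT T)) {x | cn x 0 ≤ i} (IIs ι₁ : Subgroup (GK i₀))
        (cor (H := H) (tR ρ (cyc i₀) i) (χT T) f) := by
      refine cor_local (hT1 T) hfm hst1 fun g => ?_
      obtain ⟨y, hy⟩ := h1 g
      exact ⟨y, fun σ hσ hσH b hb => hy σ hσ hσH b hb⟩
    rw [tR_twF]
    exact h3
  · have h3 : VCobS (twR (tR ρ (cyc i₀) i) (χT T)) {x | cn x 1 ≤ i} (IIs ι₂ : Subgroup (GK i₀))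
        (cor (H := H) (tR ρ (cyc i₀) i) (χT T) f) := by
      refine cor_local (hT1 T) hfm hst2 fun g => ?_
      obtain ⟨y, hy⟩ := h2 g
      exact ⟨y, fun σ hσ hσH b hb => hy σ hσ hσH b hb⟩
    rw [tR_twF]
    exact h3

end

end Pool.Agent.K3h45.ST
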